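import Pool.Agent.Helper14.FO.Defs2

/-! Independent sets of OR-powers with weights (IN2), for MP_190084_co. -/

set_option autoImplicit false

namespace Pool.Agent.Helper14.FO

theorem st_IN2 : ST_IN2 := by
  classical
  intro V _ _ X ρ χ hρ hχ hL n S hS
  have hsub : S ⊆ Fintype.piFinset (fun i => S.image (fun u => u i)) := by
    intro u hu
    rw [Fintype.mem_piFinset]
    intro i
    exact Finset.mem_image_of_mem _ hu
  have hind : ∀ i, χ * (∑ x ∈ S.image (fun u => u i), ρ x) ≤ 1 := by
    intro i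
    apply hL
    intro a ha b hb
    obtain ⟨u, hu, rfl⟩ := Finset.mem_image.1 ha
    obtain ⟨v, hv, rfl⟩ := Finset.mem_image.1 hb
    exact hS u hu v hv i
  have h0 : ∀ u : Fin n → V, 0 ≤ ∏ i, ρ (u i) := fun u => Finset.prod_nonneg fun i _ => hρ _
  calc χ ^ n * ∑ u ∈ S, ∏ i, ρ (u i)
      ≤ χ ^ n * ∑ u ∈ Fintype.piFinset (fun i => S.image (fun u => u i)), ∏ i, ρ (u i) := by
        apply mul_le_mul_of_nonneg_left _ (pow_nonneg hχ.le n)
        exact Finset.sum_le_sum_of_subset_of_nonneg hsub fun u _ _ => h0 u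
    _ = χ ^ n * ∏ i : Fin n, ∑ x ∈ S.image (fun u => u i), ρ x := by
        rw [Finset.prod_univ_sum]
    _ = ∏ i : Fin n, (χ * ∑ x ∈ S.image (fun u => u i), ρ x) := by
        rw [Finset.prod_mul_distrib, Finset.prod_const, Finset.card_univ, Fintype.card_fin]
    _ ≤ ∏ _i : Fin n, (1 : ℝ) := by
        apply Finset.prod_le_prod
        · intro i _
          exact mul_nonneg hχ.le (Finset.sum_nonneg fun x _ => hρ x)
        · intro i _
          exact hind i
    _ = 1 := Finset.prod_const_one

end Pool.Agent.Helper14.FO
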