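import Pool.Agent.Helper14.FO.Defs2

/-! Expansion in translation invariant graphs (XPT), for MP_190084_co. -/

set_option autoImplicit false

namespace Pool.Agent.Helper14.FO

open Finset

theorem st_XPT (h : ST_EXP) : ST_XPT := by
  classical
  intro G _ _ _ R hR c hc hI I hInd N hN
  -- the maximal size of an independent set
  obtain ⟨A, hA, hmax⟩ : ∃ A : Finset G, Ind R A ∧ ∀ B : Finset G, Ind R B → B.card ≤ A.card := by
    have hne : ((univ : Finset (Finset G)).filter fun B => Ind R B).Nonempty :=
      ⟨∅, by rw [mem_filter]; exact ⟨mem_univ _, fun a ha => absurd ha (notMem_empty a)⟩⟩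
    obtain ⟨A, hA, hmax⟩ := exists_max_image _ (fun B : Finset G => B.card) hne
    exact ⟨A, (mem_filter.1 hA).2, fun B hB => hmax B (mem_filter.2 ⟨mem_univ _, hB⟩)⟩
  have hcA := hI A hA
  have hpos : 1 ≤ A.card := by
    have h1 : Ind R ({0} : Finset G) := by
      intro a ha b hb
      rw [mem_singleton] at ha hb
      rw [ha, hb]
      exact R.loopless.irrefl _
    have := hmax _ h1
    rwa [card_singleton] at this
  have h1 : ∀ B : Finset G, Ind R B → Fintype.card G * B.card ≤ A.card * Fintype.card G := by
    intro B hB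
    rw [mul_comm]
    exact Nat.mul_le_mul_right _ (hmax B hB)
  have h2 := h G R hR (Fintype.card G) A.card h1 I hInd
    (univ.filter fun b => ∃ a ∈ I, R.Adj a b) (by intro b; simp)
  have hdis : Disjoint I (univ.filter fun b => ∃ a ∈ I, R.Adj a b) := by
    rw [disjoint_left]
    intro b hb hb'
    obtain ⟨a, ha, hab⟩ := (mem_filter.1 hb').2
    exact hInd a ha b hb hab
  have hNeq : N = I ∪ univ.filter fun b => ∃ a ∈ I, R.Adj a b := by
    ext x
    rw [hN, mem_union, mem_filter]
    simp
  have hcard : N.card = I.card + (univ.filter fun b => ∃ a ∈ I, R.Adj a b).card := by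
    rw [hNeq, card_union_of_disjoint hdis]
  rw [← hcard] at h2
  have h3 : (Fintype.card G : ℝ) * I.card ≤ A.card * N.card := by exact_mod_cast h2
  have hG : (0 : ℝ) < Fintype.card G := by
    have : 0 < Fintype.card G := Fintype.card_pos
    exact_mod_cast this
  have hAp : (0 : ℝ) < A.card := by
    have : 0 < A.card := hpos
    exact_mod_cast this
  have h4 : c * (I.card : ℝ) ≤ N.card := by
    have h5 : c * A.card * I.card ≤ Fintype.card G * (I.card : ℝ) :=
      mul_le_mul_of_nonneg_right hcA (Nat.cast_nonneg _)
    have h6 : (A.card : ℝ) * (c * I.card) ≤ A.card * N.card := by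
      calc (A.card : ℝ) * (c * I.card) = c * A.card * I.card := by ring
        _ ≤ Fintype.card G * (I.card : ℝ) := h5
        _ ≤ A.card * N.card := h3
    exact le_of_mul_le_mul_left h6 hAp
  unfold UW
  rw [sum_const, sum_const, nsmul_eq_mul, nsmul_eq_mul, ← mul_assoc]
  exact mul_le_mul_of_nonneg_right h4 (by positivity)

end Pool.Agent.Helper14.FO
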