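import Pool.Agent.Helper14.FO.Defs2
import Pool.Agent.Helper38.FO.BCE

/-! MP_190084_co: spectral certificate of cube graphs, with `3 r ≤ N`. -/

set_option autoImplicit false

namespace Pool.Agent.Helper14.FO

open Finset Pool.Agent.Helper38.FO

theorem bc2_M {N r : ℕ} (hr : 1 ≤ r) (h3 : 3 * r ≤ N) :
    0 ≤ 1 - 2 * (r : ℝ) / N ∧ 1 - 2 * (r : ℝ) / N ≤ 1 := by
  have hN : (0 : ℝ) < N := by
    have h1 : 0 < N := by omega
    exact_mod_cast h1
  have h1 : 3 * (r : ℝ) ≤ N := by exact_mod_cast h3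
  have h2 : 2 * (r : ℝ) / N ≤ 1 := by
    rw [div_le_one hN]
    have h3 : (0 : ℝ) ≤ r := Nat.cast_nonneg r
    linarith
  have h3 : 0 ≤ 2 * (r : ℝ) / N := by positivity
  exact ⟨by linarith, by linarith⟩

theorem bc2_small {N r : ℕ} (hr : 1 ≤ r) (h8 : 3 * r ≤ N) (S : Finset (Fin N))
    (hS : S.card ≤ 1) :
    -((N.choose r : ℝ) * (1 - 2 * (r : ℝ) / N)) ≤ bceA N S (N - r) ∧
      bceA N S (N - r) ≤ N.choose r := by
  obtain ⟨m0, m1⟩ := bc2_M hr h8
  have hc : (0 : ℝ) ≤ N.choose r := Nat.cast_nonneg _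
  have hcm : 0 ≤ (N.choose r : ℝ) * (1 - 2 * (r : ℝ) / N) := mul_nonneg hc m0
  have h01 : S.card = 0 ∨ S.card = 1 := by omega
  rcases h01 with h0 | h1
  · rw [Finset.card_eq_zero] at h0
    subst h0
    rw [bce_empty, Nat.choose_symm (by omega)]
    exact ⟨by linarith, le_refl _⟩
  · obtain ⟨n, rfl⟩ : ∃ n, N = n + 1 := ⟨N - 1, by omega⟩
    obtain ⟨k, rfl⟩ : ∃ k, r = k + 1 := ⟨r - 1, by omega⟩
    obtain ⟨s, rfl⟩ := Finset.card_eq_one.1 h1
    rw [bce_compl {s} (by omega : k + 1 ≤ n + 1), bce_one, Finset.card_singleton, pow_one]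
    exact ⟨by linarith, by linarith⟩

theorem bc2_bound (h : ST_KR2) {N r : ℕ} (hr : 1 ≤ r) (h8 : 3 * r ≤ N) (he : Even (N - r))
    (S : Finset (Fin N)) :
    -((N.choose r : ℝ) * (1 - 2 * (r : ℝ) / N)) ≤ bceA N S (N - r) ∧
      bceA N S (N - r) ≤ N.choose r := by
  by_cases h1 : S.card ≤ 1
  · exact bc2_small hr h8 S h1
  by_cases h2 : Sᶜ.card ≤ 1
  · have h3 := bce_complS Sᶜ (N - r)
    rw [compl_compl, he.neg_one_pow, one_mul] at h3
    rw [h3]
    exact bc2_small hr h8 Sᶜ h2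
  · obtain ⟨m0, m1⟩ := bc2_M hr h8
    have hc : (0 : ℝ) ≤ N.choose r := Nat.cast_nonneg _
    have hcm : (N.choose r : ℝ) * (1 - 2 * (r : ℝ) / N) ≤ N.choose r :=
      mul_le_of_le_one_right hc m1
    rw [card_compl, Fintype.card_fin] at h2
    have h3 : |bceA N S r| ≤ (N.choose r : ℝ) * (1 - 2 * (r : ℝ) / N) :=
      h N r hr h8 S (by omega) (by omega)
    have h4 : |bceA N S (N - r)| = |bceA N S r| := by
      rw [bce_compl S (by omega : r ≤ N), abs_mul, abs_pow, abs_neg, abs_one, one_pow, one_mul]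
    rw [← h4, abs_le] at h3
    exact ⟨h3.1, h3.2.trans hcm⟩

theorem st_BC2 (h : ST_KR2) : ST_BC2 := by
  intro N r hr h8 he
  have hrN : r ≤ N := by omega
  have hCpos : (0 : ℝ) < N.choose r := by exact_mod_cast Nat.choose_pos hrN
  have h2N : (0 : ℝ) < (2 : ℝ) ^ N := by positivity
  have hb := bc2_bound h hr h8 he
  obtain ⟨M, hM⟩ : ∃ M : ℝ, M = 1 - 2 * (r : ℝ) / N := ⟨_, rfl⟩
  rw [← hM]
  simp only [← hM] at hb
  refine ⟨bceM N r, ?_, ?_, ?_, ?_⟩
  · intro x y hxy
    rw [bceM_app]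
    refine if_neg fun hd => hxy ⟨?_, hd⟩
    rintro rfl
    rw [hammingDist_self] at hd
    omega
  · intro x
    have h1 : ∀ y : Fin N → ZMod 2, bceM N r x y =
        (if hammingDist x y = N - r then (1 : ℝ) else 0) * (1 / (N.choose r : ℝ)) := by
      intro y
      rw [bceM_app]
      split_ifs
      · rw [one_mul]
      · rw [zero_mul]
    rw [Finset.sum_congr rfl fun y _ => h1 y, ← Finset.sum_mul, bce_row, Nat.choose_symm hrN]
    field_simp
  · have h1 : (bceM N r + M • (1 : Matrix (Fin N → ZMod 2) (Fin N → ZMod 2) ℝ)) =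
        bceB fun S => (bceA N S (N - r) + M * N.choose r) * (1 / ((2 : ℝ) ^ N * N.choose r)) := by
      ext x y
      rw [bceB_app, Matrix.add_apply, Matrix.smul_apply, smul_eq_mul]
      have h2 : ∀ S : Finset (Fin N), (bceA N S (N - r) + M * N.choose r) *
          (1 / ((2 : ℝ) ^ N * N.choose r)) *
          (-1 : ℝ) ^ (S ∩ univ.filter fun i => x i ≠ y i).card =
          (1 / ((2 : ℝ) ^ N * N.choose r)) * (bceA N S (N - r) *
            (-1 : ℝ) ^ (S ∩ univ.filter fun i => x i ≠ y i).card) +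
          (1 / ((2 : ℝ) ^ N * N.choose r)) * (M * N.choose r) *
            (-1 : ℝ) ^ (S ∩ univ.filter fun i => x i ≠ y i).card := by
        intro S
        ring
      rw [Finset.sum_congr rfl fun S _ => h2 S, Finset.sum_add_distrib, ← Finset.mul_sum,
        ← Finset.mul_sum, bce_adj, bce_id]
      rw [bceM_app]
      congr 1
      · split_ifs
        · field_simp
        · rw [mul_zero]
      · field_simp
    rw [h1]
    refine bceB_psd fun S => mul_nonneg ?_ (by positivity)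
    have := (hb S).1
    linarith
  · have h1 : ((1 : Matrix (Fin N → ZMod 2) (Fin N → ZMod 2) ℝ) - bceM N r) =
        bceB fun S => (N.choose r - bceA N S (N - r)) * (1 / ((2 : ℝ) ^ N * N.choose r)) := by
      ext x y
      rw [bceB_app, Matrix.sub_apply]
      have h2 : ∀ S : Finset (Fin N), ((N.choose r : ℝ) - bceA N S (N - r)) *
          (1 / ((2 : ℝ) ^ N * N.choose r)) *
          (-1 : ℝ) ^ (S ∩ univ.filter fun i => x i ≠ y i).card =
          (1 / ((2 : ℝ) ^ N * N.choose r)) * (N.choose r : ℝ) *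
            (-1 : ℝ) ^ (S ∩ univ.filter fun i => x i ≠ y i).card -
          (1 / ((2 : ℝ) ^ N * N.choose r)) * (bceA N S (N - r) *
            (-1 : ℝ) ^ (S ∩ univ.filter fun i => x i ≠ y i).card) := by
        intro S
        ring
      rw [Finset.sum_congr rfl fun S _ => h2 S, Finset.sum_sub_distrib, ← Finset.mul_sum,
        ← Finset.mul_sum, bce_adj, bce_id]
      rw [bceM_app]
      congr 1
      · field_simp
      · split_ifs
        · field_simp
        · rw [mul_zero]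
    rw [h1]
    refine bceB_psd fun S => mul_nonneg ?_ (by positivity)
    have := (hb S).2
    linarith

end Pool.Agent.Helper14.FO
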